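import Mathlib
import Pool.Agent.X137.EternalDefs
import Pool.Agent.X137.Eternal

/-! A graph on 13 vertices which is not defeated in 13 attacks in the m-eternal domination game. -/

namespace Pool.Agent.Results.MP_18a4fa_co.ThirteenVertices

open Pool.Agent.X137.Eternal

/-- There is a graph on `13` vertices which is not defeated in `13` attacks: some configuration `C` of
fewer guards than the m-eternal domination number survives the first `13` attacks against every
strategy of the attacker. -/
theorem result : ∃ H : SimpleGraph (Fin 13), ¬ DefeatedIn H 13 := by
  refine ⟨G, fun h => ?_⟩
  obtain ⟨C, hC, hC'⟩ := main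
  exact hC' (h C hC)

end Pool.Agent.Results.MP_18a4fa_co.ThirteenVertices
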